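import Mathlib
import Pool.Agent.R634.Lef.Upper
import Pool.Agent.R634.Lef.Lower

/-!
# MP_bb1fdc: an uncountable family of LEF groups with pairwise inequivalent LEF growth
-/

namespace Pool.Agent.Results.MP_bb1fdc_al.Uncountable

open Pool.Agent.R634 Pool.Agent.R634.Lef Filter

lemma scale_bounds {A : ℕ → Prop} (i : ℕ) : ∀ j, A j → j < i → ll j * KK j ≤ KK i :=
  fun j _ hji => (ll_mul_KK_le j).trans (KK_strictMono.monotone hji)

lemma isLEF_Grp (A : ℕ → Prop) : IsLEF (Grp A) := by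
  intro F hF
  obtain ⟨R, hR, hFR⟩ := exists_rad_finite A hF
  obtain ⟨Q, i1, i2, π, hπ, -⟩ := upper A (2 * R) (KK (2 * R)) R hR
    (fun j _ => by
      rcases lt_or_ge j (2 * R) with h | h
      · exact Or.inl h
      · exact Or.inr (lt_of_le_of_lt h (lt_KK j)))
    (KK_pos _) (scale_bounds _) F hFR
  exact ⟨Q, i1, i2, π, hπ⟩

lemma fg_Grp (A : ℕ → Prop) : Group.FG (Grp A) := by
  have : Finite (gens A) := by
    unfold gens
    exact Set.Finite.to_subtype (Set.toFinite _)
  exact Group.closure_finite_fg (gens A)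

lemma exists_large (c : ℕ) : ∃ l₀ : ℕ, ∀ l, l₀ ≤ l → c * l ^ 4 < 2 ^ l := by
  have h := (isLittleO_pow_const_const_pow_of_one_lt (R := ℝ) 4 (one_lt_two)).bound
    (show (0:ℝ) < 1 / (c + 1) by positivity)
  obtain ⟨l₀, hl₀⟩ := eventually_atTop.mp h
  refine ⟨max l₀ 1, fun l hl => ?_⟩
  have h1 := hl₀ l ((le_max_left _ _).trans hl)
  have hl1 : 1 ≤ l := (le_max_right _ _).trans hl
  rw [Real.norm_eq_abs, Real.norm_eq_abs, abs_of_nonneg (by positivity),
    abs_of_nonneg (by positivity)] at h1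
  have h2 : ((c : ℝ) + 1) * (l:ℝ) ^ 4 ≤ 2 ^ l := by
    have hc : (0:ℝ) < c + 1 := by positivity
    calc ((c : ℝ) + 1) * (l:ℝ) ^ 4 ≤ (c + 1) * (1 / (c + 1) * 2 ^ l) :=
          mul_le_mul_of_nonneg_left h1 hc.le
      _ = 2 ^ l := by field_simp
  have h3 : (0:ℝ) < (l:ℝ) ^ 4 := by positivity
  have h4 : (c:ℝ) * (l:ℝ) ^ 4 < 2 ^ l := by linarith
  exact_mod_cast h4

/-- If `A \ B` is infinite, the LEF growth of `G_A` is not `⪯` that of `G_B`. -/
theorem not_preceq {A B : ℕ → Prop} (hinf : {i | A i ∧ ¬ B i}.Infinite) {S : Set (Grp A)}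
    {T : Set (Grp B)} (hS : S.Finite) (hSg : Subgroup.closure S = ⊤) (hT : T.Finite)
    (_hTg : Subgroup.closure T = ⊤) : ¬ GPreceq (lefGrowth S) (lefGrowth T) := by
  obtain ⟨c₁, hc₁, hlow⟩ := lower A hSg
  obtain ⟨c₂, hc₂, hrad⟩ := exists_rad_ball B hT
  rintro ⟨C, hC, h⟩
  set C' := ⌈C⌉₊ with hC'
  have hC'1 : 1 ≤ C' := Nat.one_le_iff_ne_zero.mpr (Nat.ceil_pos.mpr hC).ne'
  set c₃ := c₂ * (C' * c₁) with hc₃
  have hc₃1 : 1 ≤ c₃ := Nat.mul_pos hc₂ (Nat.mul_pos hC'1 hc₁)
  obtain ⟨l₀, hl₀⟩ := exists_large (48 * c₃)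
  obtain ⟨i, hi, hil⟩ := hinf.exists_gt (l₀ + 1)
  obtain ⟨hAi, hBi⟩ := hi
  have hKi := KK_pos i
  have hli : l₀ ≤ ll i := by
    have h1 := lt_KK i
    have h2 := KK_lt_ll i
    omega
  have hbig := hl₀ (ll i) hli
  have hll1 := ll_pos i
  have hKl := (KK_lt_ll i).le
  -- the radius
  set n := c₁ * (KK i * ll i ^ 2) with hn
  have hn1 : 1 ≤ n := Nat.mul_pos hc₁ (Nat.mul_pos hKi (Nat.pow_pos hll1))
  have hnR : (0:ℝ) < n := by exact_mod_cast hn1
  have h1 := h n hnR
  rw [Nat.ceil_natCast] at h1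
  have hlowS : 2 ^ (2 ^ (ll i)) ≤ lefGrowth S n :=
    hlow i hAi n le_rfl _ (Nat.sInf_mem (lefSet_nonempty (isLEF_Grp A) hS n))
  set n' := ⌈C * n⌉₊ with hn'
  have hn'le : n' ≤ C' * n := by
    rw [hn', Nat.ceil_le]
    push_cast
    exact mul_le_mul_of_nonneg_right (Nat.le_ceil C) hnR.le
  have hn'1 : 1 ≤ n' := Nat.one_le_iff_ne_zero.mpr (Nat.ceil_pos.mpr (by positivity)).ne'
  set R := c₂ * n' with hR
  have hR1 : 1 ≤ R := Nat.mul_pos hc₂ hn'1
  set X := c₃ * (KK i * ll i ^ 2) with hX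
  have hRX : R ≤ X := by
    calc R ≤ c₂ * (C' * n) := Nat.mul_le_mul_left _ hn'le
      _ = X := by rw [hX, hc₃, hn]; ring
  have hKX : KK i ≤ X := by
    calc KK i = 1 * (KK i * 1) := by ring
      _ ≤ c₃ * (KK i * ll i ^ 2) := by
          apply Nat.mul_le_mul hc₃1
          exact Nat.mul_le_mul_left _ (Nat.one_le_pow _ _ hll1)
  have hX1 : 1 ≤ X := hKi.trans hKX
  have hXl : X ≤ c₃ * ll i ^ 3 := by
    calc X ≤ c₃ * (ll i * ll i ^ 2) :=
          Nat.mul_le_mul_left _ (Nat.mul_le_mul_right _ hKl)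
      _ = c₃ * ll i ^ 3 := by ring
  have hKnext : 2 * R < KK (i + 1) := by
    have h2 : 2 * (c₃ * ll i ^ 3) ≤ 48 * c₃ * ll i ^ 4 := by
      have : ll i ^ 3 ≤ ll i ^ 4 := Nat.pow_le_pow_right hll1 (by norm_num)
      nlinarith
    have h3 : 2 ^ (ll i) ≤ 2 ^ (2 ^ (ll i)) :=
      Nat.pow_le_pow_right (by norm_num) Nat.lt_two_pow_self.le
    rw [KK_succ]
    omega
  obtain ⟨Q, i1, i2, π, hπ, hcard⟩ := upper B i (KK i) R hR1
    (fun j hj => by
      rcases lt_or_ge j i with h | h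
      · exact Or.inl h
      · right
        have hne : j ≠ i := fun he => hBi (he ▸ hj)
        have : i + 1 ≤ j := by omega
        exact hKnext.trans_le (KK_strictMono.monotone this))
    hKi (scale_bounds _) (ball T n') (fun g hg => hrad n' g hg)
  have hup : lefGrowth T n' ≤ Nat.card Q := Nat.sInf_le ⟨Q, i1, i2, π, hπ, rfl⟩
  have hYY : Nat.card (YY (trunc B i)) ≤ KK i := by
    obtain ⟨i', rfl⟩ : ∃ i', i = i' + 1 := ⟨i - 1, by omega⟩
    exact (card_YY_le B (i' + 1)).trans (sum_le_KK i')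
  set q := KK i + 4 * R + 1 with hq
  have hq6 : q ≤ 6 * X := by omega
  have hfinal : Nat.card Q < 2 ^ (2 ^ (ll i)) := by
    rw [hcard]
    calc 120 ^ (Nat.card (YY (trunc B i)) * q) * q
        ≤ 120 ^ (KK i * q) * 2 ^ (KK i * q) := by
          apply Nat.mul_le_mul
          · exact Nat.pow_le_pow_right (by norm_num) (Nat.mul_le_mul_right _ hYY)
          · calc q ≤ 2 ^ q := Nat.lt_two_pow_self.le
              _ ≤ 2 ^ (KK i * q) :=
                  Nat.pow_le_pow_right (by norm_num) (Nat.le_mul_of_pos_left _ hKi)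
      _ ≤ (2 ^ 7) ^ (KK i * q) * 2 ^ (KK i * q) := by
          apply Nat.mul_le_mul_right
          exact Nat.pow_le_pow_left (by norm_num) _
      _ = 2 ^ (8 * (KK i * q)) := by
          rw [← pow_mul, ← pow_add]; ring_nf
      _ ≤ 2 ^ (48 * c₃ * ll i ^ 4) := by
          apply Nat.pow_le_pow_right (by norm_num)
          calc 8 * (KK i * q) ≤ 8 * (ll i * (6 * (c₃ * ll i ^ 3))) := by
                apply Nat.mul_le_mul_left
                exact Nat.mul_le_mul hKl (hq6.trans (Nat.mul_le_mul_left _ hXl))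
            _ = 48 * c₃ * ll i ^ 4 := by ring
      _ < 2 ^ (2 ^ (ll i)) := Nat.pow_lt_pow_right (by norm_num) hbig
  omega

lemma ball_image {G H : Type*} [Group G] [Group H] (e : G ≃* H) (S : Set G) (n : ℕ) :
    ∀ g ∈ ball S n, e g ∈ ball (e '' S) n := by
  rintro _ ⟨l, hl, hS, rfl⟩
  refine ⟨l.map e, by simpa using hl, ?_, ?_⟩
  · intro s hs
    obtain ⟨t, ht, rfl⟩ := List.mem_map.mp hs
    rcases hS t ht with h | h
    · exact Or.inl ⟨t, h, rfl⟩
    · exact Or.inr ⟨t⁻¹, h, by simp⟩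
  · rw [map_list_prod]

lemma lefSet_image_subset {G H : Type*} [Group G] [Group H] (e : G ≃* H) (S : Set G) (n : ℕ) :
    lefSet (e '' S) n ⊆ lefSet S n := by
  rintro m ⟨Q, i1, i2, π, ⟨h1, h2⟩, rfl⟩
  refine ⟨Q, i1, i2, fun g => π (e g), ⟨?_, ?_⟩, rfl⟩
  · intro g hg h hh hgh
    exact e.injective (h1 (ball_image e S n g hg) (ball_image e S n h hh) hgh)
  · intro g hg h hh hgh
    have := h2 (e g) (ball_image e S n g hg) (e h) (ball_image e S n h hh) (by
      rw [← map_mul]; exact ball_image e S n _ hgh)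
    show π (e (g * h)) = π (e g) * π (e h)
    rw [← this, map_mul]

/-- Transport of LEF growth along an isomorphism. -/
lemma lefGrowth_image {G H : Type*} [Group G] [Group H] (e : G ≃* H) (S : Set G) :
    lefGrowth (e '' S) = lefGrowth S := by
  funext n
  unfold lefGrowth
  congr 1
  apply Set.Subset.antisymm (lefSet_image_subset e S n)
  have h := lefSet_image_subset e.symm (e '' S) n
  have h3 : e.symm '' (e '' S) = S := by
    rw [Set.image_image]; simp
  rwa [h3] at h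

/-- The subset of `ℕ` coding `a : ℕ → Bool`: the codes of the finite prefixes of `a`. -/
def code (a : ℕ → Bool) (i : ℕ) : Prop := ∃ n, i = Encodable.encode ((List.range n).map a)

lemma code_diff {a b : ℕ → Bool} (hab : a ≠ b) : {i | code a i ∧ ¬ code b i}.Infinite := by
  obtain ⟨n₀, hn₀⟩ := Function.ne_iff.mp hab
  let φ : ℕ → ℕ := fun n => Encodable.encode ((List.range (n₀ + 1 + n)).map a)
  have hφ : Function.Injective φ := by
    intro m n hmn
    have h1 := Encodable.encode_injective hmn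
    have h2 := congrArg List.length h1
    simp only [List.length_map, List.length_range] at h2
    omega
  refine (Set.infinite_range_of_injective hφ).mono ?_
  rintro _ ⟨n, rfl⟩
  refine ⟨⟨_, rfl⟩, ?_⟩
  rintro ⟨m, hm⟩
  have h1 := Encodable.encode_injective hm
  have h2 := congrArg List.length h1
  simp only [List.length_map, List.length_range] at h2
  subst h2
  have h3 := List.map_inj_left.mp h1 n₀ (List.mem_range.mpr (by omega))
  exact hn₀ h3

/-- **Positive answer to Q1 of MP_bb1fdc.** There is a family of finitely generated LEF groups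
indexed by an uncountable type, such that distinct members are non-isomorphic and have
inequivalent LEF growth (for all choices of finite generating sets). -/
theorem result : ∃ (ι : Type) (_ : Uncountable ι) (G : ι → Type) (_ : ∀ a, Group (G a)),
    (∀ a, Group.FG (G a)) ∧ (∀ a, IsLEF (G a)) ∧
    ∀ a b, a ≠ b → IsEmpty (G a ≃* G b) ∧
      ∀ (S : Set (G a)) (T : Set (G b)), S.Finite → Subgroup.closure S = ⊤ → T.Finite →
        Subgroup.closure T = ⊤ → ¬ GEquiv (lefGrowth S) (lefGrowth T) := by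
  have hmain : ∀ a b : ℕ → Bool, a ≠ b → ∀ (S : Set (Grp (code a))) (T : Set (Grp (code b))),
      S.Finite → Subgroup.closure S = ⊤ → T.Finite → Subgroup.closure T = ⊤ →
      ¬ GEquiv (lefGrowth S) (lefGrowth T) := by
    intro a b hab S T hS hSg hT hTg h
    exact not_preceq (code_diff hab) hS hSg hT hTg h.1
  have hunc : Uncountable (ℕ → Bool) := by
    rw [← not_countable_iff]
    intro hc
    obtain ⟨f, hf⟩ := exists_surjective_nat (ℕ → Bool)
    obtain ⟨n, hn⟩ := hf (fun n => !(f n n))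
    have := congrFun hn n
    simp at this
  refine ⟨ℕ → Bool, hunc, fun a => Grp (code a), fun a => inferInstance,
    fun a => fg_Grp _, fun a => isLEF_Grp _, ?_⟩
  intro a b hab
  refine ⟨⟨fun e => ?_⟩, hmain a b hab⟩
  obtain ⟨S, hSg, hS⟩ := (Group.fg_iff (G := Grp (code a))).mp (fg_Grp _)
  have hTg : Subgroup.closure (e '' S) = ⊤ := by
    rw [show (e '' S) = (e.toMonoidHom '' S) from rfl, ← MonoidHom.map_closure, hSg]
    exact Subgroup.map_top_of_surjective _ e.surjective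
  apply hmain a b hab S (e '' S) hS hSg (hS.image _) hTg
  rw [lefGrowth_image e S]
  exact ⟨⟨1, one_pos, fun x _ => by rw [one_mul]⟩, ⟨1, one_pos, fun x _ => by rw [one_mul]⟩⟩

end Pool.Agent.Results.MP_bb1fdc_al.Uncountable
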